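import Pool.Agent.L7h59.NC.Def
import Pool.Agent.Y490.SL.NilGen

set_option autoImplicit false

/-!
# Project NC, part NIL0: `K₀` is invariant under nilpotent extensions
-/

namespace Pool.Agent.L7h22.NC

open Matrix Pool.Agent.L7h59.NC
open Pool.Agent.L7h59.TW (k0)

theorem pow_entry {B : Type} [Ring B] (I : Ideal B) {n : ℕ} (M : Matrix (Fin n) (Fin n) B)
    (hM : ∀ i j, M i j ∈ I) (k : ℕ) (i j : Fin n) : (M ^ k) i j ∈ I ^ k := by
  induction k generalizing i j with
  | zero =>
    have h : (I ^ 0 : Ideal B) = ⊤ := by rw [Submodule.pow_zero]; exact Ideal.one_eq_top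
    rw [h]
    exact Submodule.mem_top
  | succ k ih =>
    rw [pow_succ M k, Matrix.mul_apply, Submodule.pow_succ I]
    exact Submodule.sum_mem _ fun l _ => Submodule.mul_mem_mul (ih i l) (hM l j)

theorem nilKer_of {B C : Type} [Ring B] [Ring C] (π : B →+* C)
    (hN : ∃ N : ℕ, (RingHom.ker π) ^ N = ⊥) : Pool.Agent.Y490.SL.NilKer π := by
  obtain ⟨N, hN⟩ := hN
  intro n M hM
  refine ⟨N, ?_⟩
  ext i j
  have h1 := pow_entry (RingHom.ker π) M (fun i j => by
    rw [RingHom.mem_ker]
    exact congrFun (congrFun hM i) j) N i j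
  rw [hN] at h1
  exact (Submodule.mem_bot B).1 h1

theorem s_NIL0 : S_NIL0 := by
  intro B C _ _ π hs hN
  exact Pool.Agent.Y490.SL.nil_bijective π hs (nilKer_of π hN)

end Pool.Agent.L7h22.NC
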